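import Pool.Agent.Helper16.CZ.Stmts

/-! Module TPO: orthogonality at all levels. -/

set_option autoImplicit false

open Finset Filter MeasureTheory Topology
open scoped ComplexConjugate InnerProductSpace

namespace Pool.Agent.Helper16.CZ

open Pool.Agent.Helper16.AZ (T E Op mm ST_VDH ST_FPV ST_TLR)
open Pool.Agent.Helper16.BZ (EQ GR PD)
open Pool.Agent.Helper16.MD (MS PB Am RW Rich)
open UnitAddTorus (mFourier)

theorem st_TPO (h0 : ST_TF0) (hT : ST_TST) : ST_TPO := by
  intro r lev D ψ S hTw ℓ
  induction ℓ using Nat.strong_induction_on with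
  | _ ℓ ih =>
    cases ℓ with
    | zero => exact h0 r lev D ψ S hTw
    | succ m => exact hT r lev D ψ S hTw m fun k hk => ih k (Nat.lt_succ_of_le hk)

end Pool.Agent.Helper16.CZ
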